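import Pool.Agent.Lib.MP_17d4d1_pr.C.H73.Gen

set_option autoImplicit false
set_option maxRecDepth 100000

/-!
# Meaning of the loops
-/

noncomputable section

namespace Pool.Agent.Lib.MP_17d4d1_pr.C.H73

open Finset Pool.Agent.Lib.MP_17d4d1_pr.C

/-- the shifts, as a list -/
def dl : List P :=
  [(1, 1, 1), (1, 1, 2), (1, 2, 1), (1, 2, 2), (2, 1, 1), (2, 1, 2), (2, 2, 1), (2, 2, 2)]

/-- the points, as a list -/
def ord : List P :=
  [(0, 1, 2), (0, 2, 1), (1, 0, 2), (1, 2, 0), (2, 0, 1), (2, 1, 0), (1, 1, 1), (0, 0, 2),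
    (0, 1, 1), (0, 2, 0), (0, 2, 2), (1, 0, 1), (1, 1, 0), (1, 1, 2), (1, 2, 1), (2, 0, 0),
    (2, 0, 2), (2, 1, 1), (2, 2, 0), (0, 0, 1), (0, 1, 0), (1, 0, 0), (1, 2, 2), (2, 1, 2),
    (2, 2, 1), (0, 0, 0), (2, 2, 2)]

def mkPL (y : P) : List P → PL
  | [] => PL.nil
  | d :: l => PL.cons (2 ^ (ix (y + d) : ℕ)) (1024 ^ (ix (y + d) : ℕ))
      (1024 ^ (ix (y + d + d) : ℕ)) (mkPL y l)

def mkYL : List P → YL
  | [] => YL.nil
  | y :: l => YL.cons (2 ^ (ix y : ℕ)) (1024 ^ (ix y : ℕ)) (mkPL y dl) (mkYL l)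

theorem tbl_eq : tbl = mkYL ord := by decide +kernel

def cD (U : P → Bool) (y : P) (l : List P) : P → ℕ :=
  (l.map fun d => (U (y + d)).toNat • sg (y + d + d)).sum

def cF (U : P → Bool) (y : P) (l : List P) : P → ℕ :=
  (l.map fun d => (U (y + d)).toNat • (sg (y + d) + sg y)).sum

def cN (U : P → Bool) (y : P) (l : List P) : P → ℕ :=
  (l.map fun d => (U (y + d)).toNat • sg y).sum

def mkD (U : P → Bool) : List P → DL
  | [] => DL.nil
  | y :: l => DL.cons (2 ^ (ix y : ℕ)) (pk (cD U y dl)) (pk (cF U y dl)) (mkD U l)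

theorem filtK_spec (X : ℕ) (full : Tab) : ∀ acc : Tab, ∃ L : Tab,
    (∀ k, filtK X full acc k = k L) ∧ (∀ M X' H Q, mem M X' H Q acc → mem M X' H Q L) ∧
    ∀ M X' H Q, mem M X' H Q full → sub X M = true → mem M X' H Q L := by
  induction full with
  | nil => exact fun acc => ⟨acc, fun _ => rfl, fun _ _ _ _ h => h, fun _ _ _ _ h => h.elim⟩
  | cons M₀ X₀ H₀ Q₀ t ih =>
    intro acc
    by_cases h : sub X M₀ = true
    · obtain ⟨L, h1, h2, h3⟩ := ih (Tab.cons M₀ X₀ H₀ Q₀ acc)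
      refine ⟨L, fun k => ?_, fun M X' H Q hm => h2 _ _ _ _ (Or.inr hm), ?_⟩
      · have e : filtK X (Tab.cons M₀ X₀ H₀ Q₀ t) acc k = ite' (sub X M₀)
          (filtK X t (Tab.cons M₀ X₀ H₀ Q₀ acc) k) (filtK X t acc k) := rfl
        rw [e, h, ite'_true, h1]
      · rintro M X' H Q (hm | hm) hs
        · exact h2 _ _ _ _ (Or.inl hm)
        · exact h3 _ _ _ _ hm hs
    · obtain ⟨L, h1, h2, h3⟩ := ih acc
      refine ⟨L, fun k => ?_, h2, ?_⟩
      · have e : filtK X (Tab.cons M₀ X₀ H₀ Q₀ t) acc k = ite' (sub X M₀)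
          (filtK X t (Tab.cons M₀ X₀ H₀ Q₀ acc) k) (filtK X t acc k) := rfl
        rw [e, Bool.eq_false_iff.2 h, ite'_false, h1]
      · rintro M X' H Q (⟨rfl, _⟩ | hm) hs
        · exact absurd hs h
        · exact h3 _ _ _ _ hm hs

theorem loopA_spec (NU SU W : ℕ) (L : Tab) (h : loopA NU SU W L = true) (M X H Q : ℕ)
    (hm : mem M X H Q L) : chk1 NU SU W H Q = true := by
  induction L with
  | nil => exact hm.elim
  | cons M₀ X₀ H₀ Q₀ t ih =>
    have h' : ite' (chk1 NU SU W H₀ Q₀) (loopA NU SU W t) false = true := h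
    obtain ⟨h1, h2⟩ := ite'_and h'
    rcases hm with ⟨-, -, rfl, rfl⟩ | hm
    · exact h1
    · exact ih h2 hm

theorem loopH_spec (Cp Cm W XV : ℕ) (L : Tab) (h : loopH Cp Cm W XV L = true) (M X H Q : ℕ)
    (hm : mem M X H Q L) (hs : sub XV M = true) : chk Cp Cm W H Q = true := by
  induction L with
  | nil => exact hm.elim
  | cons M₀ X₀ H₀ Q₀ t ih =>
    have h' : ite' (sub XV M₀) (ite' (chk Cp Cm W H₀ Q₀) (loopH Cp Cm W XV t) false)
      (loopH Cp Cm W XV t) = true := h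
    by_cases h0 : sub XV M₀ = true
    · rw [h0, ite'_true] at h'
      obtain ⟨h1, h2⟩ := ite'_and h'
      rcases hm with ⟨-, -, rfl, rfl⟩ | hm
      · exact h1
      · exact ih h2 hm
    · rw [Bool.eq_false_iff.2 h0, ite'_false] at h'
      rcases hm with ⟨rfl, -, -, -⟩ | hm
      · exact absurd hs h0
      · exact ih h' hm

theorem loopV_spec (MU HU : ℕ) (l : DL) (L LV : Tab) (h : loopV MU HU l L LV = true)
    (M X H Q : ℕ) (hm : mem M X H Q LV) (h1 : Nat.ble MU M = true) (h2 : sub X MU = true) :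
    (sumV M l 0 0 fun Cp Cm => fce (Nat.land HU H) fun W => loopH Cp Cm W X L) = true := by
  induction LV with
  | nil => exact hm.elim
  | cons M₀ X₀ H₀ Q₀ t ih =>
    have h' : ite' (Nat.ble MU M₀) (ite' (sub X₀ MU)
        (ite' (sumV M₀ l 0 0 fun Cp Cm => fce (Nat.land HU H₀) fun W => loopH Cp Cm W X₀ L)
          (loopV MU HU l L t) false) (loopV MU HU l L t)) (loopV MU HU l L t) = true := h
    by_cases g1 : Nat.ble MU M₀ = true
    · rw [g1, ite'_true] at h'
      by_cases g2 : sub X₀ MU = true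
      · rw [g2, ite'_true] at h'
        obtain ⟨h3, h4⟩ := ite'_and h'
        rcases hm with ⟨rfl, rfl, rfl, -⟩ | hm
        · exact h3
        · exact ih h4 hm
      · rw [Bool.eq_false_iff.2 g2, ite'_false] at h'
        rcases hm with ⟨-, rfl, -, -⟩ | hm
        · exact absurd h2 g2
        · exact ih h' hm
    · rw [Bool.eq_false_iff.2 g1, ite'_false] at h'
      rcases hm with ⟨rfl, -, -, -⟩ | hm
      · exact absurd h1 g1
      · exact ih h' hm

theorem outer_spec (full : Tab) (r : ℕ) (l : Tab) (h : outer full r l = true) (M X H Q : ℕ)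
    (hm : mem M X H Q l) (hr : M % 16 = r) : body full M X H = true := by
  induction l with
  | nil => exact hm.elim
  | cons M₀ X₀ H₀ Q₀ t ih =>
    have h' : ite' (Nat.beq (Nat.mod M₀ 16) r) (ite' (body full M₀ X₀ H₀) (outer full r t) false)
      (outer full r t) = true := h
    by_cases g : Nat.beq (Nat.mod M₀ 16) r = true
    · rw [g, ite'_true] at h'
      obtain ⟨h1, h2⟩ := ite'_and h'
      rcases hm with ⟨rfl, rfl, rfl, -⟩ | hm
      · exact h1
      · exact ih h2 hm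
    · rw [Bool.eq_false_iff.2 g, ite'_false] at h'
      rcases hm with ⟨rfl, -, -, -⟩ | hm
      · exfalso
        apply g
        have e : Nat.mod M 16 = r := hr
        rw [e]
        exact Nat.beq_refl r
      · exact ih h' hm

theorem valid_spec (l : Tab) (h : valid l = true) (M X H Q : ℕ) (hm : mem M X H Q l) :
    Nat.land Q H = Q ∧ dsum 27 Q ≤ 500 ∧ Q < 1024 ^ 27 := by
  induction l with
  | nil => exact hm.elim
  | cons M₀ X₀ H₀ Q₀ t ih =>
    have h' : ite' (Nat.beq (Nat.land Q₀ H₀) Q₀) (ite' (Nat.ble (dsum 27 Q₀) 500)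
      (ite' (Nat.ble Q₀ (1024 ^ 27 - 1)) (valid t) false) false) false = true := h
    obtain ⟨h1, h2⟩ := ite'_and h'
    obtain ⟨h3, h4⟩ := ite'_and h2
    obtain ⟨h5, h6⟩ := ite'_and h4
    rcases hm with ⟨-, -, rfl, rfl⟩ | hm
    · refine ⟨Nat.eq_of_beq_eq_true h1, Nat.le_of_ble_eq_true h3, ?_⟩
      have := Nat.le_of_ble_eq_true h5
      omega
    · exact ih h6 hm

variable (hP : PACK_S)
include hP

theorem sumP_spec (U : P → Bool) (y : P) (l : List P) :
    ∀ (D F N : P → ℕ) (k : ℕ → ℕ → ℕ → Bool),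
      sumP (ms U) (1024 ^ (ix y : ℕ)) (mkPL y l) (pk D) (pk F) (pk N) k =
        k (pk (D + cD U y l)) (pk (F + cF U y l)) (pk (N + cN U y l)) := by
  induction l with
  | nil =>
    intro D F N k
    have e : sumP (ms U) (1024 ^ (ix y : ℕ)) (mkPL y []) (pk D) (pk F) (pk N) k =
      k (pk D) (pk F) (pk N) := rfl
    rw [e]
    simp [cD, cF, cN]
  | cons d l ih =>
    intro D F N k
    have e : sumP (ms U) (1024 ^ (ix y : ℕ)) (mkPL y (d :: l)) (pk D) (pk F) (pk N) k =
      ite' (sub (2 ^ (ix (y + d) : ℕ)) (ms U))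
        (fce (pk D + 1024 ^ (ix (y + d + d) : ℕ)) fun D' =>
          fce (pk F + (1024 ^ (ix (y + d) : ℕ) + 1024 ^ (ix y : ℕ))) fun F' =>
          fce (pk N + 1024 ^ (ix y : ℕ)) fun N' =>
            sumP (ms U) (1024 ^ (ix y : ℕ)) (mkPL y l) D' F' N' k)
        (sumP (ms U) (1024 ^ (ix y : ℕ)) (mkPL y l) (pk D) (pk F) (pk N) k) := rfl
    rw [e, sub_pt hP, fce_eq, fce_eq, fce_eq, ← pk_sg (y + d + d), pk_add]
    have e2 : 1024 ^ (ix (y + d) : ℕ) + 1024 ^ (ix y : ℕ) = pk (sg (y + d) + sg y) := by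
      rw [← pk_add, pk_sg, pk_sg]
    rw [e2, pk_add]
    have e3 : pk N + 1024 ^ (ix y : ℕ) = pk (N + sg y) := by
      rw [← pk_add, pk_sg]
    rw [e3, ih, ih]
    by_cases hU : U (y + d) = true
    · rw [hU, ite'_true]
      simp only [cD, cF, cN, List.map_cons, List.sum_cons, hU, Bool.toNat_true, one_smul,
        add_assoc]
    · have hU' : U (y + d) = false := Bool.not_eq_true _ ▸ hU
      rw [hU', ite'_false]
      simp only [cD, cF, cN, List.map_cons, List.sum_cons, hU', Bool.toNat_false, zero_smul,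
        zero_add]

theorem mkDL_spec (U : P → Bool) (l : List P) : ∀ (l0 : List P) (N : P → ℕ)
    (k : DL → ℕ → Bool), mkDL (ms U) (mkYL l) (mkD U l0) (pk N) k =
      k (mkD U (l.reverse ++ l0)) (pk (N + (l.map fun y => cN U y dl).sum)) := by
  induction l with
  | nil =>
    intro l0 N k
    have e : mkDL (ms U) (mkYL []) (mkD U l0) (pk N) k = k (mkD U l0) (pk N) := rfl
    rw [e]
    simp
  | cons y l ih =>
    intro l0 N k
    have e : mkDL (ms U) (mkYL (y :: l)) (mkD U l0) (pk N) k =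
      sumP (ms U) (1024 ^ (ix y : ℕ)) (mkPL y dl) 0 0 (pk N) fun D F N' =>
        mkDL (ms U) (mkYL l) (DL.cons (2 ^ (ix y : ℕ)) D F (mkD U l0)) N' k := rfl
    have h := sumP_spec hP U y dl 0 0 N fun D F N' =>
        mkDL (ms U) (mkYL l) (DL.cons (2 ^ (ix y : ℕ)) D F (mkD U l0)) N' k
    rw [pk_zero] at h
    rw [e, h, zero_add, zero_add]
    have h2 := ih (y :: l0) (N + cN U y dl) k
    refine h2.trans ?_
    simp only [List.reverse_cons, List.append_assoc, List.cons_append, List.nil_append,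
      List.map_cons, List.sum_cons, add_assoc]

theorem sumV_spec (U V : P → Bool) (l : List P) : ∀ (a b : P → ℕ) (k : ℕ → ℕ → Bool),
    sumV (ms V) (mkD U l) (pk a) (pk b) k =
      k (pk (a + (l.map fun y => (V y).toNat • cD U y dl).sum))
        (pk (b + (l.map fun y => (V y).toNat • cF U y dl).sum)) := by
  induction l with
  | nil =>
    intro a b k
    have e : sumV (ms V) (mkD U []) (pk a) (pk b) k = k (pk a) (pk b) := rfl
    rw [e]
    simp
  | cons y l ih =>
    intro a b k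
    have e : sumV (ms V) (mkD U (y :: l)) (pk a) (pk b) k =
      ite' (sub (2 ^ (ix y : ℕ)) (ms V))
        (fce (pk a + pk (cD U y dl)) fun a' => fce (pk b + pk (cF U y dl)) fun b' =>
          sumV (ms V) (mkD U l) a' b' k)
        (sumV (ms V) (mkD U l) (pk a) (pk b) k) := rfl
    rw [e, sub_pt hP, fce_eq, fce_eq, pk_add, pk_add, ih, ih]
    by_cases hV : V y = true
    · rw [hV, ite'_true]
      simp only [List.map_cons, List.sum_cons, hV, Bool.toNat_true, one_smul, add_assoc]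
    · have hV' : V y = false := Bool.not_eq_true _ ▸ hV
      rw [hV', ite'_false]
      simp only [List.map_cons, List.sum_cons, hV', Bool.toNat_false, zero_smul, zero_add]

end Pool.Agent.Lib.MP_17d4d1_pr.C.H73

end
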