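import Pool.Agent.Lib.MP_17d4d1_pr.C.H73.Pts

set_option autoImplicit false
set_option maxRecDepth 100000

/-!
# The enumeration finds all up-sets
-/

noncomputable section

namespace Pool.Agent.Lib.MP_17d4d1_pr.C.H73

open Finset Pool.Agent.Lib.MP_17d4d1_pr.C

/-- `c` covers `p` -/
def isCov (p c : P) : Bool :=
  decide (p ≤ c ∧ c.1.val + c.2.1.val + c.2.2.val = p.1.val + p.2.1.val + p.2.2.val + 1)

/-- all upper covers are in `u` -/
def cv (u : P → Bool) (p : P) : Bool := decide (∀ c, isCov p c = true → u c = true)

/-- maximal elements of the complement -/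
def mxc (U : P → Bool) (p : P) : Bool := !U p && cv U p

def mkEL : List P → EL
  | [] => EL.nil
  | p :: l => EL.cons (2 ^ (ix p : ℕ)) (1023 * 1024 ^ (ix p : ℕ)) (ms (isCov p)) (mkEL l)

/-- the order of the enumeration -/
def ext : List P :=
  [(2, 2, 2), (1, 2, 2), (2, 1, 2), (2, 2, 1), (0, 2, 2), (1, 1, 2), (1, 2, 1), (2, 0, 2),
    (2, 1, 1), (2, 2, 0), (0, 1, 2), (0, 2, 1), (1, 0, 2), (1, 1, 1), (1, 2, 0), (2, 0, 1),
    (2, 1, 0), (0, 0, 2), (0, 1, 1), (0, 2, 0), (1, 0, 1), (1, 1, 0), (2, 0, 0), (0, 0, 1),
    (0, 1, 0), (1, 0, 0), (0, 0, 0)]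

theorem etl_eq : etl = mkEL ext := by decide +kernel

theorem mem_ext : ∀ p : P, p ∈ ext := by decide +kernel

/-- the complement of `l` is an up-set -/
def UpC (l : List P) : Prop := ∀ q c, isCov q c = true → c ∈ l → q ∈ l

instance (l : List P) : Decidable (UpC l) := by unfold UpC; infer_instance

def GoodL : List P → Prop
  | [] => True
  | p :: l => UpC (p :: l) ∧ p ∉ l ∧ GoodL l

instance decGoodL : (l : List P) → Decidable (GoodL l)
  | [] => isTrue trivial
  | p :: l => by
    have := decGoodL l
    unfold GoodL
    infer_instance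

theorem good_ext : GoodL ext := by decide +kernel

theorem upC_of_good {l : List P} (h : GoodL l) : UpC l := by
  cases l with
  | nil => intro q c _ hc; simp at hc
  | cons p l => exact h.1

theorem isCov_irrefl (p : P) : isCov p p = false := by
  unfold isCov
  rw [decide_eq_false_iff_not]
  rintro ⟨_, h⟩
  omega

theorem cv_iff (u : P → Bool) (p : P) :
    cv u p = true ↔ ∀ c, isCov p c = true → u c = true := decide_eq_true_iff

set_option synthInstance.maxSize 1000 in
theorem cov_below : ∀ x y : P, x ≤ y → x ≠ y → ∃ c : P, isCov x c = true ∧ c ≤ y := by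
  decide +kernel

/-- critical pairs are found by the test -/
theorem mxc_of_cr {W S : P → Bool} (hW : Up W) (h : Cr W S) (p : P) (hp : mxc W p = true) :
    S p = true := by
  unfold mxc at hp
  rw [Bool.and_eq_true, Bool.not_eq_true', cv_iff] at hp
  refine h p hp.1 fun y hy => ?_
  obtain ⟨c, hc, hcy⟩ := cov_below p y hy.le hy.ne
  exact hW c y hcy (hp.2 c hc)

theorem expQ_spec (n : ℕ) : ∀ x b acc : ℕ, ∃ Q, ∀ k, expQ n x b acc k = k Q := by
  induction n with
  | zero => exact fun _ _ acc => ⟨acc, fun _ => rfl⟩
  | succ n ih =>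
    intro x b acc
    obtain ⟨Q, hQ⟩ := ih (x / 32) (b * 1024) (acc + x % 32 * b)
    refine ⟨Q, fun k => ?_⟩
    rw [← hQ k]
    have e : expQ (n + 1) x b acc k = fce (Nat.add acc (Nat.mul (Nat.mod x 32) b)) fun acc' =>
      fce (Nat.div x 32) fun x' => fce (Nat.mul b 1024) fun b' => expQ n x' b' acc' k := rfl
    rw [e]
    simp only [fce_eq]
    rfl

variable (hP : PACK_S)
include hP

theorem gen_spec (l : List P) (hl : GoodL l) : ∀ (u : P → Bool) (Qs : List ℕ) (acc : Tab),
    (∀ x ∈ l, u x = false) → ∃ (T : Tab) (Qs' : List ℕ),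
      (∀ k, gen (mkEL l) (ms u) (ms (fun p => !decide (p ∈ l) && mxc u p)) (bl u) Qs acc k =
        k Qs' T) ∧
      (∀ M X H Q, mem M X H Q acc → mem M X H Q T) ∧
      (∀ U, Up U → (∀ x, x ∉ l → U x = u x) → ∃ Q, mem (ms U) (ms (mxc U)) (bl U) Q T) := by
  induction l with
  | nil =>
    intro u Qs acc _
    have hX : (fun p => !decide (p ∈ ([] : List P)) && mxc u p) = mxc u := by
      funext p
      simp
    rw [hX]
    have hU : ∀ U : P → Bool, (∀ x, x ∉ ([] : List P) → U x = u x) → U = u := fun U h =>
      funext fun x => h x (by simp)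
    cases Qs with
    | nil =>
      refine ⟨Tab.cons (ms u) (ms (mxc u)) (bl u) 0 acc, [], fun _ => rfl,
        fun _ _ _ _ h => Or.inr h, fun U _ h => ⟨0, Or.inl ?_⟩⟩
      rw [hU U h]
      exact ⟨rfl, rfl, rfl, rfl⟩
    | cons q qs =>
      obtain ⟨Q, hQ⟩ := expQ_spec 27 q 1 0
      refine ⟨Tab.cons (ms u) (ms (mxc u)) (bl u) Q acc, qs, fun k => ?_,
        fun _ _ _ _ h => Or.inr h, fun U _ h => ⟨Q, Or.inl ?_⟩⟩
      · exact hQ fun Q => k qs (Tab.cons (ms u) (ms (mxc u)) (bl u) Q acc)
      · rw [hU U h]
        exact ⟨rfl, rfl, rfl, rfl⟩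
  | cons p l ih =>
    intro u Qs acc hu
    have hpl : p ∉ l := hl.2.1
    have hup : u p = false := hu p (by simp)
    have hul : ∀ x ∈ l, u x = false := fun x hx => hu x (by simp [hx])
    have e : ∀ (X : ℕ) (k : List ℕ → Tab → Bool),
        gen (mkEL (p :: l)) (ms u) X (bl u) Qs acc k =
        ite' (sub (ms (isCov p)) (ms u))
          (fce (Nat.add X (2 ^ (ix p : ℕ))) fun X' => gen (mkEL l) (ms u) X' (bl u) Qs acc
            fun Qs' acc' => fce (Nat.add (ms u) (2 ^ (ix p : ℕ))) fun M' =>
              fce (Nat.add (bl u) (1023 * 1024 ^ (ix p : ℕ))) fun H' =>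
                gen (mkEL l) M' X H' Qs' acc' k)
          (gen (mkEL l) (ms u) X (bl u) Qs acc k) := fun _ _ => rfl
    have hcvp : ∀ c, isCov p c = true → c ∉ p :: l := by
      intro c hc hcl
      rcases List.mem_cons.1 hcl with h | h
      · rw [h, isCov_irrefl] at hc
        exact Bool.noConfusion hc
      · exact hpl (upC_of_good hl.2.2 p c hc h)
    by_cases hcase : cv u p = true
    · -- the point may be added
      have hsub : sub (ms (isCov p)) (ms u) = true := by
        rw [sub_ms hP]
        exact (cv_iff u p).1 hcase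
      obtain ⟨T1, Qs1, h1, h2, h3⟩ := ih hl.2.2 u Qs acc hul
      set u' : P → Bool := fun q => u q || decide (q = p) with hu'
      have hu'l : ∀ x ∈ l, u' x = false := by
        intro x hx
        have hxp : x ≠ p := fun h => hpl (h ▸ hx)
        simp [hu', hul x hx, hxp]
      obtain ⟨T2, Qs2, g1, g2, g3⟩ := ih hl.2.2 u' Qs1 T1 hu'l
      have eX : ms (fun q => !decide (q ∈ p :: l) && mxc u q) + 2 ^ (ix p : ℕ) =
          ms (fun q => !decide (q ∈ l) && mxc u q) := by
        rw [← ms_pt p, ms_or]
        · congr 1
          funext q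
          by_cases hq : q = p
          · subst hq
            simp [hpl, mxc, hup, hcase]
          · simp [hq]
        · intro x hx
          by_cases hxp : x = p
          · subst hxp
            simp at hx
          · simp [hxp]
      have eM : ms u + 2 ^ (ix p : ℕ) = ms u' := by
        rw [← ms_pt p, ms_or]
        intro x hx
        by_cases hxp : x = p
        · subst hxp
          rw [hup] at hx
          exact Bool.noConfusion hx
        · simp [hxp]
      have eH : bl u + 1023 * 1024 ^ (ix p : ℕ) = bl u' := by
        rw [← bl_pt p, bl_or]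
        intro x hx
        by_cases hxp : x = p
        · subst hxp
          rw [hup] at hx
          exact Bool.noConfusion hx
        · simp [hxp]
      have eX2 : (fun q => !decide (q ∈ p :: l) && mxc u q) =
          (fun q => !decide (q ∈ l) && mxc u' q) := by
        funext q
        by_cases hq : q = p
        · subst hq
          simp [mxc, hu']
        · by_cases hql : q ∈ l
          · simp [hql]
          · have hc : cv u' q = cv u q := by
              rw [Bool.eq_iff_iff, cv_iff, cv_iff]
              have : ∀ c, isCov q c = true → u' c = u c := by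
                intro c hc
                have hcp : c ≠ p := by
                  rintro rfl
                  rcases List.mem_cons.1 (hl.1 q c hc (by simp)) with h | h
                  · exact hq h
                  · exact hql h
                simp [hu', hcp]
              constructor
              · intro h c hc
                rw [← this c hc]
                exact h c hc
              · intro h c hc
                rw [this c hc]
                exact h c hc
            have hu'q : u' q = u q := by simp [hu', hq]
            simp [mxc, hc, hu'q, hq]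
      refine ⟨T2, Qs2, fun k => ?_, fun M X H Q h => g2 _ _ _ _ (h2 _ _ _ _ h), fun U hU h => ?_⟩
      · rw [e, hsub, ite'_true, fce_eq]
        have h1' := h1 (fun Qs' acc' => fce (Nat.add (ms u) (2 ^ (ix p : ℕ))) fun M' =>
              fce (Nat.add (bl u) (1023 * 1024 ^ (ix p : ℕ))) fun H' =>
                gen (mkEL l) M' (ms (fun q => !decide (q ∈ p :: l) && mxc u q)) H' Qs' acc' k)
        rw [← eX] at h1'
        refine h1'.trans ?_
        rw [fce_eq, fce_eq]
        have g1' := g1 k
        rw [← eM, ← eH, ← eX2] at g1'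
        exact g1'
      · by_cases hUp : U p = true
        · refine g3 U hU fun x hx => ?_
          by_cases hxp : x = p
          · subst hxp
            simp [hu', hUp]
          · have : x ∉ p :: l := by simp [hxp, hx]
            rw [h x this]
            simp [hu', hxp]
        · obtain ⟨Q, hQ⟩ := h3 U hU fun x hx => by
            by_cases hxp : x = p
            · subst hxp
              rw [hup]
              exact Bool.not_eq_true _ ▸ hUp
            · exact h x (by simp [hxp, hx])
          exact ⟨Q, g2 _ _ _ _ hQ⟩
    · -- the point cannot be added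
      have hsub : sub (ms (isCov p)) (ms u) = false := by
        rw [← Bool.not_eq_true, sub_ms hP]
        exact fun h => hcase ((cv_iff u p).2 h)
      obtain ⟨T1, Qs1, h1, h2, h3⟩ := ih hl.2.2 u Qs acc hul
      have eX : (fun q => !decide (q ∈ p :: l) && mxc u q) =
          (fun q => !decide (q ∈ l) && mxc u q) := by
        funext q
        by_cases hq : q = p
        · subst hq
          simp [mxc, Bool.not_eq_true _ ▸ hcase]
        · simp [hq]
      refine ⟨T1, Qs1, fun k => ?_, h2, fun U hU h => h3 U hU fun x hx => ?_⟩
      · rw [e, hsub, ite'_false, eX]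
        exact h1 k
      · by_cases hxp : x = p
        · subst hxp
          rw [hup, ← Bool.not_eq_true]
          intro hUx
          apply hcase
          rw [cv_iff]
          intro c hc
          rw [← h c (hcvp c hc)]
          refine hU x c ?_ hUx
          unfold isCov at hc
          exact (of_decide_eq_true hc).1
        · exact h x (by simp [hxp, hx])

/-- all up-sets are in the table -/
theorem complete : ∃ T : Tab, (∀ k : Tab → Bool, gen etl 0 0 0 qs Tab.nil (fun _ T => k T) = k T) ∧
    ∀ U, Up U → ∃ Q, mem (ms U) (ms (mxc U)) (bl U) Q T := by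
  obtain ⟨T, Qs', h1, _, h3⟩ := gen_spec hP ext good_ext (fun _ => false) qs Tab.nil
    (fun _ _ => rfl)
  refine ⟨T, fun k => ?_, fun U hU => h3 U hU fun x hx => absurd (mem_ext x) hx⟩
  have e1 : ms (fun _ => false) = 0 := by simp [ms]
  have e2 : bl (fun _ => false) = 0 := by simp [bl]
  have e3 : (fun p : P => !decide (p ∈ ext) && mxc (fun _ => false) p) = fun _ => false := by
    funext p
    simp [mem_ext p]
  have h := h1 (fun _ T => k T)
  rw [e3, e1, e2, ← etl_eq] at h
  exact h

end Pool.Agent.Lib.MP_17d4d1_pr.C.H73

end
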