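import Pool.Agent.Lib.MP_17d4d1_pr.C.H73.Defs

set_option autoImplicit false

namespace Pool.Agent.Lib.MP_17d4d1_pr.C.H73

theorem main_5 : main 5 = true := by decide +kernel

end Pool.Agent.Lib.MP_17d4d1_pr.C.H73
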