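import Pool.Agent.Lib.MP_17d4d1_pr.C.H73.Body
import Pool.Agent.Lib.MP_17d4d1_pr.C.H73.KV
import Pool.Agent.Lib.MP_17d4d1_pr.C.H73.K0
import Pool.Agent.Lib.MP_17d4d1_pr.C.H73.K1
import Pool.Agent.Lib.MP_17d4d1_pr.C.H73.K2
import Pool.Agent.Lib.MP_17d4d1_pr.C.H73.K3
import Pool.Agent.Lib.MP_17d4d1_pr.C.H73.K4
import Pool.Agent.Lib.MP_17d4d1_pr.C.H73.K5
import Pool.Agent.Lib.MP_17d4d1_pr.C.H73.K6
import Pool.Agent.Lib.MP_17d4d1_pr.C.H73.K7
import Pool.Agent.Lib.MP_17d4d1_pr.C.H73.K8
import Pool.Agent.Lib.MP_17d4d1_pr.C.H73.K9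
import Pool.Agent.Lib.MP_17d4d1_pr.C.H73.K10
import Pool.Agent.Lib.MP_17d4d1_pr.C.H73.K11
import Pool.Agent.Lib.MP_17d4d1_pr.C.H73.K12
import Pool.Agent.Lib.MP_17d4d1_pr.C.H73.K13
import Pool.Agent.Lib.MP_17d4d1_pr.C.H73.K14
import Pool.Agent.Lib.MP_17d4d1_pr.C.H73.K15

set_option autoImplicit false
set_option maxRecDepth 100000

/-!
# Module KER: the certificates for critical up-sets
-/

noncomputable section

namespace Pool.Agent.Lib.MP_17d4d1_pr.C.H73

open Finset Pool.Agent.Lib.MP_17d4d1_pr.C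

theorem main_all (r : ℕ) (hr : r < 16) : main r = true := by
  interval_cases r
  · exact main_0
  · exact main_1
  · exact main_2
  · exact main_3
  · exact main_4
  · exact main_5
  · exact main_6
  · exact main_7
  · exact main_8
  · exact main_9
  · exact main_10
  · exact main_11
  · exact main_12
  · exact main_13
  · exact main_14
  · exact main_15

/-! ### sums -/

theorem D_add : ∀ d ∈ D, d + d ∈ D := by decide +kernel

theorem add3 : ∀ x : P, ∀ d ∈ D, x + d + (d + d) = x := by decide +kernel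

theorem add4 : ∀ d ∈ D, d + d + (d + d) = d := by decide +kernel

theorem reindex (F : P → P → P → ℕ) : ∑ y : P, ∑ d ∈ D, F y (y + d) (y + d + d) =
    ∑ x : P, ∑ d ∈ D, F (x + d) x (x + d + d) := by
  rw [← sum_product', ← sum_product']
  refine sum_bij' (fun p _ => (p.1 + p.2, p.2 + p.2)) (fun p _ => (p.1 + p.2, p.2 + p.2))
    ?_ ?_ ?_ ?_ ?_
  · rintro ⟨y, d⟩ h
    rw [mem_product] at h ⊢
    exact ⟨mem_univ _, D_add d h.2⟩
  · rintro ⟨y, d⟩ h
    rw [mem_product] at h ⊢
    exact ⟨mem_univ _, D_add d h.2⟩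
  · rintro ⟨y, d⟩ h
    rw [mem_product] at h
    exact Prod.ext (add3 y d h.2) (add4 d h.2)
  · rintro ⟨y, d⟩ h
    rw [mem_product] at h
    exact Prod.ext (add3 y d h.2) (add4 d h.2)
  · rintro ⟨y, d⟩ h
    rw [mem_product] at h
    simp only [add3 y d h.2]
    rw [add_assoc]

theorem sum_dl {M : Type} [AddCommMonoid M] (g : P → M) : (dl.map g).sum = ∑ d ∈ D, g d := by
  have h1 : dl.toFinset = D := by decide +kernel
  have h2 : dl.Nodup := by decide +kernel
  rw [← h1, List.sum_toFinset g h2]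

theorem sum_ord {M : Type} [AddCommMonoid M] (g : P → M) : (ord.map g).sum = ∑ y, g y := by
  have h1 : ord.toFinset = univ := by decide +kernel
  have h2 : ord.Nodup := by decide +kernel
  rw [← h1, List.sum_toFinset g h2]

theorem sum_ord' {M : Type} [AddCommMonoid M] (g : P → M) :
    (ord.reverse.map g).sum = ∑ y, g y := by
  have h1 : ord.reverse.toFinset = univ := by decide +kernel
  have h2 : ord.reverse.Nodup := by decide +kernel
  rw [← h1, List.sum_toFinset g h2]

theorem sum_sg (c : P → ℕ) (x : P) : ∑ z, c z * sg x z = c x := by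
  rw [sum_eq_single x]
  · simp [sg]
  · intro z _ hz
    simp [sg, hz]
  · intro h
    exact absurd (mem_univ _) h

/-- the three packed functions, tested against `c` -/
theorem test_N (U : P → Bool) (c : P → ℕ) : ∑ z, c z * (∑ y, cN U y dl) z =
    ∑ y, ∑ d ∈ D, (U (y + d)).toNat * c y := by
  simp only [cN, sum_dl, Finset.sum_apply, Pi.smul_apply, smul_eq_mul, mul_sum]
  rw [sum_comm]
  refine sum_congr rfl fun y _ => ?_
  rw [sum_comm]
  refine sum_congr rfl fun d _ => ?_
  rw [← sum_sg c y, mul_sum]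
  exact sum_congr rfl fun z _ => by ring

theorem test_D (U V : P → Bool) (c : P → ℕ) :
    ∑ z, c z * (∑ y, (V y).toNat • cD U y dl) z =
      ∑ y, ∑ d ∈ D, (V y).toNat * (U (y + d)).toNat * c (y + d + d) := by
  simp only [cD, sum_dl, Finset.sum_apply, Pi.smul_apply, smul_eq_mul, mul_sum]
  rw [sum_comm]
  refine sum_congr rfl fun y _ => ?_
  rw [sum_comm]
  refine sum_congr rfl fun d _ => ?_
  rw [← sum_sg c (y + d + d), mul_sum]
  exact sum_congr rfl fun z _ => by ring

theorem test_F (U V : P → Bool) (c : P → ℕ) :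
    ∑ z, c z * (∑ y, (V y).toNat • cF U y dl) z =
      ∑ y, ∑ d ∈ D, (V y).toNat * (U (y + d)).toNat * (c (y + d) + c y) := by
  simp only [cF, sum_dl, Finset.sum_apply, Pi.smul_apply, smul_eq_mul, mul_sum, Pi.add_apply]
  rw [sum_comm]
  refine sum_congr rfl fun y _ => ?_
  rw [sum_comm]
  refine sum_congr rfl fun d _ => ?_
  rw [← sum_sg c (y + d), ← sum_sg c y, ← sum_add_distrib, mul_sum]
  exact sum_congr rfl fun z _ => by ring

theorem toNat_le (b : Bool) : b.toNat ≤ 1 := by cases b <;> simp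

theorem card_D : D.card = 8 := by decide +kernel

theorem card_P : Fintype.card P = 27 := by decide +kernel

/-- rough bound -/
theorem bound (f : P → P → ℕ) (m : ℕ) (h : ∀ y, ∀ d ∈ D, f y d ≤ m) :
    ∑ y : P, ∑ d ∈ D, f y d ≤ 216 * m := by
  calc ∑ y : P, ∑ d ∈ D, f y d ≤ ∑ y : P, ∑ d ∈ D, m :=
        sum_le_sum fun y _ => sum_le_sum fun d hd => h y d hd
    _ = 216 * m := by
        simp only [sum_const, card_D, Finset.card_univ, card_P, smul_eq_mul]
        ring

theorem dsum_sum (n : ℕ) : ∀ c : Fin n → ℕ, (∀ i, c i < 1024) →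
    dsum n (∑ i : Fin n, c i * 1024 ^ (i : ℕ)) = ∑ i, c i := by
  induction n with
  | zero => intro c _; simp [dsum]
  | succ n ih =>
    intro c hc
    have e : ∀ N, dsum (n + 1) N = N % 1024 + dsum n (N / 1024) := fun _ => rfl
    have e2 : ∑ i : Fin (n + 1), c i * 1024 ^ (i : ℕ) =
        c 0 + 1024 * ∑ i : Fin n, c i.succ * 1024 ^ (i : ℕ) := by
      rw [Fin.sum_univ_succ, mul_sum]
      congr 1
      · simp
      · exact sum_congr rfl fun i _ => by rw [Fin.val_succ, pow_succ]; ring
    have h0 := hc 0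
    rw [e, e2, Nat.add_mul_mod_self_left, Nat.mod_eq_of_lt h0, Nat.add_mul_div_left _ _ (by norm_num),
      Nat.div_eq_of_lt h0, zero_add, ih _ fun i => hc _, Fin.sum_univ_succ]

theorem dsum_pk (c : P → ℕ) (hc : ∀ x, c x < 1024) : dsum 27 (pk c) = ∑ x, c x := by
  rw [pk, dsum_sum 27 (fun i => c (pt i)) fun i => hc _, sum_pt]

theorem pk_le {c : P → ℕ} {m : ℕ} (h : ∑ x, c x ≤ m) (x : P) : c x ≤ m :=
  (single_le_sum (fun z _ => Nat.zero_le (c z)) (mem_univ x)).trans h

variable (hP : PACK_S)
include hP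

theorem body_spec (T : Tab) (U X : P → Bool) (h : body T (ms U) (ms X) (bl U) = true) :
    ∃ L : Tab, (∀ M X' H Q, mem M X' H Q T → sub (ms X) M = true → mem M X' H Q L) ∧
      loopA (pk (∑ y, cN U y dl)) (pk fun x => 16 * (U x).toNat) (bl U) L = true ∧
      loopV (ms U) (bl U) (mkD U ord.reverse) L L = true := by
  obtain ⟨L, h1, -, h3⟩ := filtK_spec (ms X) T Tab.nil
  refine ⟨L, h3, ?_⟩
  have h6 : Nat.mul 16 (Nat.div (bl U) 1023) = pk fun x => 16 * (U x).toNat := by
    have e1 : bl U = 1023 * pk (fun x => (U x).toNat) := by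
      rw [bl_pk, pk, pk, mul_sum]
      exact sum_congr rfl fun i _ => by ring
    have e2 : Nat.div (bl U) 1023 = pk (fun x => (U x).toNat) := by
      rw [e1]
      exact Nat.mul_div_cancel_left _ (by norm_num)
    have e3 : ∀ a b : ℕ, Nat.mul a b = a * b := fun _ _ => rfl
    rw [e2, e3, pk, pk, mul_sum]
    exact sum_congr rfl fun i _ => by ring
  have h5 : body T (ms U) (ms X) (bl U) = mkDL (ms U) tbl DL.nil 0 (fun dl N =>
    fce (Nat.mul 16 (Nat.div (bl U) 1023)) fun SU =>
    filtK (ms X) T Tab.nil fun L => ite' (loopA N SU (bl U) L) (loopV (ms U) (bl U) dl L L)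
      false) := rfl
  rw [h5] at h
  generalize hk : (fun (dl : DL) (N : ℕ) => fce (Nat.mul 16 (Nat.div (bl U) 1023)) fun SU =>
    filtK (ms X) T Tab.nil fun L => ite' (loopA N SU (bl U) L) (loopV (ms U) (bl U) dl L L)
      false) = k at h
  have e0 : mkD U [] = DL.nil := rfl
  have h4 := mkDL_spec hP U ord [] 0 k
  rw [e0, pk_zero, ← tbl_eq, zero_add, List.append_nil, sum_ord] at h4
  have h7 := h4.symm.trans h
  rw [← hk] at h7
  beta_reduce at h7
  rw [fce_eq, h1, h6] at h7
  exact ite'_and h7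

/-- module KER -/
theorem ker : KER_S := by
  obtain ⟨T, hT, hcomp⟩ := complete hP
  have hval : valid T = true := (hT valid).symm.trans main_V
  have hout : ∀ r < 16, outer T r T = true := fun r hr =>
    (hT fun T => outer T r T).symm.trans (main_all r hr)
  have hbody : ∀ U, Up U → body T (ms U) (ms (mxc U)) (bl U) = true := by
    intro U hU
    obtain ⟨Q, hQ⟩ := hcomp U hU
    exact outer_spec T (ms U % 16) T (hout _ (Nat.mod_lt _ (by norm_num))) _ _ _ _ hQ rfl
  have hcr : ∀ W S, Up W → Cr W S → sub (ms (mxc W)) (ms S) = true := fun W S hW h =>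
    (sub_ms hP _ _).2 fun p hp => mxc_of_cr hW h p hp
  intro H hH
  obtain ⟨Q, hQ⟩ := hcomp H hH
  obtain ⟨v1, v2, v3⟩ := valid_spec T hval _ _ _ _ hQ
  obtain ⟨c, hc, hcQ⟩ := hP.2.2.2.2 Q v3
  have hc' : Q = pk fun x => c (ix x) := by
    rw [hcQ, pk]
    exact sum_congr rfl fun i _ => by rw [ix_pt]
  set q : P → ℕ := fun x => (H x).toNat * c (ix x) with hq
  have hqQ : Q = pk q := by
    have h1 := land_pk hP (fun x => c (ix x)) H fun x => hc _
    rw [← hc', v1] at h1
    exact h1
  have hq1024 : ∀ x, q x < 1024 := by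
    intro x
    have h1 := hc (ix x)
    have h2 := toNat_le (H x)
    calc (H x).toNat * c (ix x) ≤ 1 * c (ix x) := Nat.mul_le_mul_right _ h2
      _ < 1024 := by rw [one_mul]; exact h1
  have hq500 : ∑ x, q x ≤ 500 := by
    rw [← dsum_pk q hq1024, ← hqQ]
    exact v2
  have hWq : ∀ W : P → Bool, ∑ x, (W x).toNat * q x ≤ 500 := fun W =>
    (sum_le_sum fun x _ => by
      calc (W x).toNat * q x ≤ 1 * q x := Nat.mul_le_mul_right _ (toNat_le _)
        _ = q x := one_mul _).trans hq500
  -- the number of neighbours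
  have hN : ∀ (U : P → Bool) (c : P → ℕ), (∀ x, c x ≤ 1) →
      ∑ z, c z * (∑ y, cN U y dl) z ≤ 216 := by
    intro U c hc
    rw [test_N]
    refine (bound _ 1 fun y d _ => ?_).trans (by norm_num)
    exact (Nat.mul_le_mul (toNat_le _) (hc y)).trans (by norm_num)
  have hN1 : ∀ (U : P → Bool), ∑ z, (∑ y, cN U y dl) z ≤ 216 := by
    intro U
    have := hN U (fun _ => 1) fun _ => le_rfl
    simpa only [one_mul] using this
  have hDs : ∀ (U V : P → Bool) (c : P → ℕ), (∀ x, c x ≤ 1) →
      ∑ z, c z * (∑ y, (V y).toNat • cD U y dl) z ≤ 216 := by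
    intro U V c hc
    rw [test_D]
    refine (bound _ 1 fun y d _ => ?_).trans (by norm_num)
    exact (Nat.mul_le_mul (Nat.mul_le_mul (toNat_le _) (toNat_le _)) (hc _)).trans (by norm_num)
  have hFs : ∀ (U V : P → Bool) (c : P → ℕ), (∀ x, c x ≤ 1) →
      ∑ z, c z * (∑ y, (V y).toNat • cF U y dl) z ≤ 432 := by
    intro U V c hc
    rw [test_F]
    refine (bound _ 2 fun y d _ => ?_).trans (by norm_num)
    exact (Nat.mul_le_mul (Nat.mul_le_mul (toNat_le _) (toNat_le _))
      (Nat.add_le_add (hc _) (hc _))).trans (by norm_num)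
  refine ⟨q, fun x hx => by simp [hq, hx], fun W hW hWH => ?_, ?_⟩
  · -- first inequality
    obtain ⟨L, hL, hA, -⟩ := body_spec hP T W (mxc W) (hbody W hW)
    have h1 := loopA_spec _ _ _ L hA _ _ _ _ (hL _ _ _ _ hQ (hcr W H hW hWH))
    unfold chk1 at h1
    have h2 : (Nat.land Q (bl W) + Nat.land (pk (∑ y, cN W y dl)) (bl H)) % 1023 ≤
        (Nat.land (pk fun x => 16 * (W x).toNat) (bl H)) % 1023 := Nat.le_of_ble_eq_true h1
    rw [hqQ, land_pk hP q W hq1024, land_pk hP _ H
      (fun x => lt_of_le_of_lt (pk_le (hN1 W) x) (by norm_num)), land_pk hP _ H, pk_add,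
      mod_pk hP, mod_pk hP] at h2
    · simp only [Pi.add_apply, sum_add_distrib] at h2
      rw [test_N] at h2
      unfold A1
      have h3 : ∑ y : P, ∑ d ∈ D, (W (y + d)).toNat * (H y).toNat =
          ∑ x, ∑ d ∈ D, (W x).toNat * (H (x + d)).toNat :=
        (reindex fun a b _ => (W a).toNat * (H b).toNat).symm
      have h4 : ∑ x, (H x).toNat * (16 * (W x).toNat) =
          16 * ∑ x, (W x).toNat * (H x).toNat := by
        rw [mul_sum]
        exact sum_congr rfl fun x _ => by ring
      rw [h3, h4] at h2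
      exact h2
    · refine lt_of_le_of_lt (b := 432) ?_ (by norm_num)
      calc ∑ x, (H x).toNat * (16 * (W x).toNat) ≤ ∑ _x : P, 16 := by
            refine sum_le_sum fun x _ => ?_
            calc (H x).toNat * (16 * (W x).toNat) ≤ 1 * (16 * 1) :=
                  Nat.mul_le_mul (toNat_le _) (Nat.mul_le_mul_left _ (toNat_le _))
              _ = 16 := by norm_num
        _ = 432 := by simp only [sum_const, Finset.card_univ, card_P, smul_eq_mul]
    · simp only [Pi.add_apply, sum_add_distrib]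
      have := hWq W
      have := hN W (fun x => (H x).toNat) fun x => toNat_le _
      omega
    · intro x
      have := toNat_le (W x)
      omega
  · -- second inequality
    have key : ∀ U V, Up U → Up V → Cr U V → Cr V U → Cr U H → Cr V H → ms U ≤ ms V →
        A2 H q U V := by
      intro U V hU hV hUV hVU hUH hVH hle
      obtain ⟨L, hL, -, hV2⟩ := body_spec hP T U (mxc U) (hbody U hU)
      obtain ⟨QV, hQV⟩ := hcomp V hV
      have h1 := loopV_spec _ _ _ L L hV2 _ _ _ _ (hL _ _ _ _ hQV (hcr U V hU hUV))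
        (Nat.ble_eq_true_of_le hle) (hcr V U hV hVU)
      have h2 := sumV_spec hP U V ord.reverse 0 0 (fun Cp Cm =>
        fce (Nat.land (bl U) (bl V)) fun W => loopH Cp Cm W (ms (mxc V)) L)
      rw [pk_zero, h1, zero_add, zero_add, sum_ord', sum_ord', fce_eq, land_bl hP] at h2
      have h3 := loopH_spec _ _ _ _ L h2.symm _ _ _ _ (hL _ _ _ _ hQ (hcr U H hU hUH))
        (hcr V H hV hVH)
      unfold chk at h3
      have h4 : (Nat.land (pk (∑ y, (V y).toNat • cF U y dl)) (bl H)) % 1023 ≤
          (Nat.land (pk (∑ y, (V y).toNat • cD U y dl)) (bl H) +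
            Nat.land Q (bl fun x => U x && V x)) % 1023 := Nat.le_of_ble_eq_true h3
      have hF1 : ∑ z, (∑ y, (V y).toNat • cF U y dl) z ≤ 432 := by
        have := hFs U V (fun _ => 1) fun _ => le_rfl
        simpa only [one_mul] using this
      have hD1 : ∑ z, (∑ y, (V y).toNat • cD U y dl) z ≤ 216 := by
        have := hDs U V (fun _ => 1) fun _ => le_rfl
        simpa only [one_mul] using this
      rw [hqQ, land_pk hP _ H (fun x => lt_of_le_of_lt (pk_le hF1 x) (by norm_num)),
        land_pk hP _ H (fun x => lt_of_le_of_lt (pk_le hD1 x) (by norm_num)),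
        land_pk hP q _ hq1024, pk_add, mod_pk hP, mod_pk hP] at h4
      · simp only [Pi.add_apply, sum_add_distrib] at h4
        rw [test_F, test_D] at h4
        unfold A2
        have e1 : ∑ y : P, ∑ d ∈ D, (V y).toNat * (U (y + d)).toNat *
            ((H (y + d)).toNat + (H y).toNat) =
            ∑ x, ∑ d ∈ D, (U x).toNat * (V (x + d)).toNat *
              ((H x).toNat + (H (x + d)).toNat) := by
          refine Eq.trans ?_ (reindex fun a b _ => (U a).toNat * (V b).toNat *
            ((H a).toNat + (H b).toNat)).symm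
          exact sum_congr rfl fun y _ => sum_congr rfl fun d _ => by ring
        have e2 : ∑ y : P, ∑ d ∈ D, (V y).toNat * (U (y + d)).toNat * (H (y + d + d)).toNat =
            ∑ x, ∑ d ∈ D, (U x).toNat * (V (x + d)).toNat * (H (x + d + d)).toNat := by
          refine Eq.trans ?_ (reindex fun a b c => (U a).toNat * (V b).toNat *
            (H c).toNat).symm
          exact sum_congr rfl fun y _ => sum_congr rfl fun d _ => by ring
        have e3 : ∑ x, (U x && V x).toNat * q x = ∑ x, (U x).toNat * (V x).toNat * q x := by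
          refine sum_congr rfl fun x _ => ?_
          cases U x <;> cases V x <;> simp
        rw [e1, e2, e3] at h4
        rw [add_comm]
        exact h4
      · simp only [Pi.add_apply, sum_add_distrib]
        have := hWq fun x => U x && V x
        have := hDs U V (fun x => (H x).toNat) fun x => toNat_le _
        omega
      · have := hFs U V (fun x => (H x).toNat) fun x => toNat_le _
        omega
    intro U V hU hV hUV hVU hUH hVH
    rcases le_total (ms U) (ms V) with hle | hle
    · exact key U V hU hV hUV hVU hUH hVH hle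
    · have h := key V U hV hU hVU hUV hVH hUH hle
      unfold A2 at h ⊢
      have e1 : ∑ x, ∑ d ∈ D, (V x).toNat * (U (x + d)).toNat *
          ((H x).toNat + (H (x + d)).toNat) = ∑ x, ∑ d ∈ D, (U x).toNat * (V (x + d)).toNat *
          ((H x).toNat + (H (x + d)).toNat) := by
        refine (reindex fun a b _ => (V a).toNat * (U b).toNat *
            ((H a).toNat + (H b).toNat)).trans ?_
        exact sum_congr rfl fun y _ => sum_congr rfl fun d _ => by ring
      have e2 : ∑ x, ∑ d ∈ D, (V x).toNat * (U (x + d)).toNat * (H (x + d + d)).toNat =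
          ∑ x, ∑ d ∈ D, (U x).toNat * (V (x + d)).toNat * (H (x + d + d)).toNat := by
        refine (reindex fun a b c => (V a).toNat * (U b).toNat * (H c).toNat).trans ?_
        exact sum_congr rfl fun y _ => sum_congr rfl fun d _ => by ring
      have e3 : ∑ x, (V x).toNat * (U x).toNat * q x = ∑ x, (U x).toNat * (V x).toNat * q x :=
        sum_congr rfl fun x _ => by ring
      rw [e1, e2, e3] at h
      exact h

end Pool.Agent.Lib.MP_17d4d1_pr.C.H73

end
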