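import Pool.Agent.Lib.MP_17d4d1_pr.C.Iface
import Pool.Agent.Lib.MP_17d4d1_pr.C.H73.Defs

set_option autoImplicit false
set_option maxRecDepth 100000

/-!
# Meaning of the packed numbers
-/

noncomputable section

namespace Pool.Agent.Lib.MP_17d4d1_pr.C.H73

open Finset Pool.Agent.Lib.MP_17d4d1_pr.C

/-- the number of a point -/
def ix (x : P) : Fin 27 :=
  (![25, 19, 7, 20, 8, 0, 9, 1, 10, 21, 11, 2, 12, 6, 13, 3, 14, 22, 15, 4, 16, 5, 17, 23, 18, 24,
    26] : Fin 27 → Fin 27) ⟨9 * x.1.val + 3 * x.2.1.val + x.2.2.val, by omega⟩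

/-- the point of a number -/
def pt : Fin 27 → P :=
  ![(0, 1, 2), (0, 2, 1), (1, 0, 2), (1, 2, 0), (2, 0, 1), (2, 1, 0), (1, 1, 1), (0, 0, 2),
    (0, 1, 1), (0, 2, 0), (0, 2, 2), (1, 0, 1), (1, 1, 0), (1, 1, 2), (1, 2, 1), (2, 0, 0),
    (2, 0, 2), (2, 1, 1), (2, 2, 0), (0, 0, 1), (0, 1, 0), (1, 0, 0), (1, 2, 2), (2, 1, 2),
    (2, 2, 1), (0, 0, 0), (2, 2, 2)]

theorem pt_ix : ∀ x : P, pt (ix x) = x := by decide +kernel

theorem ix_pt : ∀ i : Fin 27, ix (pt i) = i := by decide +kernel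

def eqv : P ≃ Fin 27 := ⟨ix, pt, pt_ix, ix_pt⟩

/-- packed function -/
def pk (c : P → ℕ) : ℕ := ∑ i : Fin 27, c (pt i) * 1024 ^ (i : ℕ)

/-- binary number of a set -/
def ms (U : P → Bool) : ℕ := ∑ i : Fin 27, (U (pt i)).toNat * 2 ^ (i : ℕ)

/-- block number of a set -/
def bl (U : P → Bool) : ℕ := ∑ i : Fin 27, (U (pt i)).toNat * (1023 * 1024 ^ (i : ℕ))

/-- one point -/
def sg (x : P) : P → ℕ := fun z => if z = x then 1 else 0

theorem sum_pt (c : P → ℕ) : ∑ i : Fin 27, c (pt i) = ∑ x, c x :=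
  Equiv.sum_comp eqv.symm c

theorem pk_add (c c' : P → ℕ) : pk c + pk c' = pk (c + c') := by
  simp only [pk, Pi.add_apply, add_mul, sum_add_distrib]

theorem pk_zero : pk 0 = 0 := by simp [pk]

theorem pk_sg (x : P) : pk (sg x) = 1024 ^ (ix x : ℕ) := by
  unfold pk sg
  rw [sum_eq_single (ix x)]
  · rw [pt_ix, if_pos rfl, one_mul]
  · intro i _ hi
    rw [if_neg, zero_mul]
    intro h
    exact hi (by rw [← h, ix_pt])
  · intro h
    exact absurd (mem_univ _) h

theorem ms_pt (x : P) : ms (fun z => decide (z = x)) = 2 ^ (ix x : ℕ) := by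
  unfold ms
  rw [sum_eq_single (ix x)]
  · simp [pt_ix]
  · intro i _ hi
    have : pt i ≠ x := fun h => hi (by rw [← h, ix_pt])
    simp [this]
  · intro h
    exact absurd (mem_univ _) h

theorem bl_pk (U : P → Bool) : bl U = pk (fun x => 1023 * (U x).toNat) := by
  unfold bl pk
  exact sum_congr rfl fun i _ => by ring

theorem bl_pt (x : P) : bl (fun z => decide (z = x)) = 1023 * 1024 ^ (ix x : ℕ) := by
  rw [bl_pk, ← pk_sg]
  unfold pk sg
  rw [mul_sum]
  refine sum_congr rfl fun i _ => ?_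
  by_cases h : pt i = x <;> simp [h]

/-- disjoint union -/
theorem ms_or (U V : P → Bool) (h : ∀ x, U x = true → V x = false) :
    ms U + ms V = ms (fun x => U x || V x) := by
  unfold ms
  rw [← sum_add_distrib]
  refine sum_congr rfl fun i _ => ?_
  rw [← add_mul]
  congr 1
  by_cases hU : U (pt i) = true
  · simp [hU, h _ hU]
  · simp [Bool.not_eq_true _ ▸ hU]

theorem bl_or (U V : P → Bool) (h : ∀ x, U x = true → V x = false) :
    bl U + bl V = bl (fun x => U x || V x) := by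
  unfold bl
  rw [← sum_add_distrib]
  refine sum_congr rfl fun i _ => ?_
  rw [← add_mul]
  congr 1
  by_cases hU : U (pt i) = true
  · simp [hU, h _ hU]
  · simp [Bool.not_eq_true _ ▸ hU]

section pack

variable (hP : PACK_S)
include hP

theorem land_pk (c : P → ℕ) (U : P → Bool) (hc : ∀ x, c x < 1024) :
    Nat.land (pk c) (bl U) = pk (fun x => (U x).toNat * c x) :=
  hP.1 (fun i => c (pt i)) (fun i => U (pt i)) fun _ => hc _

theorem mod_pk (c : P → ℕ) (hc : ∑ x, c x < 1023) : pk c % 1023 = ∑ x, c x := by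
  have := hP.2.1 (fun i => c (pt i)) (by rw [sum_pt]; exact hc)
  rw [sum_pt] at this
  exact this

theorem land_ms (U V : P → Bool) : Nat.land (ms U) (ms V) = ms (fun x => U x && V x) :=
  hP.2.2.1 (fun i => U (pt i)) (fun i => V (pt i))

theorem ms_inj {U V : P → Bool} (h : ms U = ms V) : U = V := by
  have := hP.2.2.2.1 (fun i => U (pt i)) (fun i => V (pt i)) h
  funext x
  have h2 := congrFun this (ix x)
  simpa only [pt_ix] using h2

theorem sub_ms (U V : P → Bool) : sub (ms U) (ms V) = true ↔ ∀ x, U x = true → V x = true := by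
  have hb : ∀ a b : ℕ, Nat.beq a b = true ↔ a = b := fun a b =>
    ⟨Nat.eq_of_beq_eq_true, fun h => by rw [h]; exact Nat.beq_refl b⟩
  unfold sub
  rw [hb]
  constructor
  · intro h x hx
    rw [land_ms hP] at h
    have h2 := congrFun (ms_inj hP h) x
    rw [hx, Bool.true_and] at h2
    exact h2
  · intro h
    rw [land_ms hP]
    congr 1
    funext x
    cases hU : U x
    · rfl
    · simp [h x hU]

theorem sub_pt (x : P) (U : P → Bool) : sub (2 ^ (ix x : ℕ)) (ms U) = U x := by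
  rw [← ms_pt x, Bool.eq_iff_iff, sub_ms hP]
  constructor
  · intro h
    exact h x (by simp)
  · intro h z hz
    rw [decide_eq_true_iff] at hz
    rw [hz]
    exact h

theorem land_bl (U V : P → Bool) : Nat.land (bl U) (bl V) = bl (fun x => U x && V x) := by
  rw [bl_pk U, land_pk hP, bl_pk]
  · congr 1
    funext x
    cases U x <;> cases V x <;> rfl
  · intro x
    cases U x <;> simp

end pack

theorem fce_eq {α : Type} (n : ℕ) (f : ℕ → α) : fce n f = f n := by
  cases n <;> rfl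

@[simp] theorem ite'_true {α : Type} (a b : α) : ite' true a b = a := rfl

@[simp] theorem ite'_false {α : Type} (a b : α) : ite' false a b = b := rfl

theorem ite'_and {a b : Bool} (h : ite' a b false = true) : a = true ∧ b = true := by
  cases a
  · exact Bool.noConfusion (h : false = true)
  · exact ⟨rfl, h⟩

/-- membership -/
def mem (M X H Q : ℕ) (l : Tab) : Prop :=
  @Tab.rec (fun _ => Prop) False (fun M' X' H' Q' _ ih =>
    (M = M' ∧ X = X' ∧ H = H' ∧ Q = Q') ∨ ih) l

theorem mem_nil (M X H Q : ℕ) : ¬ mem M X H Q Tab.nil := fun h => h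

theorem mem_cons (M X H Q M' X' H' Q' : ℕ) (t : Tab) : mem M X H Q (Tab.cons M' X' H' Q' t) ↔
    (M = M' ∧ X = X' ∧ H = H' ∧ Q = Q') ∨ mem M X H Q t := Iff.rfl

end Pool.Agent.Lib.MP_17d4d1_pr.C.H73

end
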